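import Mathlib.GroupTheory.FreeGroup.Basic
import Mathlib.GroupTheory.QuotientGroup.Basic
import Mathlib.Algebra.MonoidAlgebra.Defs
import Mathlib.LinearAlgebra.Finsupp.LSum
import Mathlib.Algebra.Module.Equiv.Basic
import Mathlib.Algebra.Group.Subgroup.Finite

/-!
# Classes of group representations definable by formulas of action

Q1 of MP_98e941_al asks whether an abstract class of representations over a ring `K` is defined by
formulas of action iff it is axiomatizable, saturated and right hereditary.  We show that this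
equivalence holds over `K` iff `K` is the zero ring.  Over a nonzero ring the class of all
representations `(V, G)` having a nonzero vector fixed by the whole of `G` is a counterexample.
-/

set_option autoImplicit false

universe u

namespace Pool.Agent.Results.MP_98e941_al.ActionFormulas

/-- A representation `(V, G)` over the ring `K`: a `K`-module `V` and a group `G` acting on `V` (on
the right) by `K`-module automorphisms; `act v g = v ∘ g`. -/
structure Rep (K : Type u) [Ring K] where
  V : Type u
  G : Type u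
  [instAddCommGroup : AddCommGroup V]
  [instModule : Module K V]
  [instGroup : Group G]
  act : V → G → V
  act_add : ∀ v w g, act (v + w) g = act v g + act w g
  act_smul : ∀ (k : K) v g, act (k • v) g = k • act v g
  act_one : ∀ v, act v 1 = v
  act_mul : ∀ v g h, act v (g * h) = act (act v g) h

attribute [instance] Rep.instAddCommGroup Rep.instModule Rep.instGroup

variable {K : Type u} [Ring K]

/-- The kernel of the action. -/
def Rep.ker (R : Rep K) : Subgroup R.G where
  carrier := {g | ∀ v, R.act v g = v}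
  one_mem' := R.act_one
  mul_mem' := by
    intro a b ha hb v
    rw [R.act_mul, ha, hb]
  inv_mem' := by
    intro a ha v
    have h := R.act_mul v a a⁻¹
    rw [mul_inv_cancel, R.act_one, ha] at h
    exact h.symm

instance Rep.ker_normal (R : Rep K) : R.ker.Normal := by
  refine ⟨fun n hn g v => ?_⟩
  rw [R.act_mul, R.act_mul, hn, ← R.act_mul, mul_inv_cancel, R.act_one]

theorem Rep.act_ker (R : Rep K) (v : R.V) (a b : R.G) (h : a⁻¹ * b ∈ R.ker) :
    R.act v a = R.act v b := by
  have h1 := h (R.act v a)
  rw [← R.act_mul, mul_inv_cancel_left] at h1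
  exact h1.symm

/-- The faithful representation `(V, G/N)` of `R = (V, G)`, where `N` is the kernel. -/
def Rep.bar (R : Rep K) : Rep K where
  V := R.V
  G := R.G ⧸ R.ker
  act v g := Quotient.liftOn' g (fun a => R.act v a)
    (fun a b h => R.act_ker v a b (QuotientGroup.leftRel_apply.1 h))
  act_add v w g := by
    induction g using QuotientGroup.induction_on
    exact R.act_add v w _
  act_smul k v g := by
    induction g using QuotientGroup.induction_on
    exact R.act_smul k v _
  act_one v := R.act_one v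
  act_mul v g h := by
    induction g using QuotientGroup.induction_on
    induction h using QuotientGroup.induction_on
    exact R.act_mul v _ _

/-- The subrepresentation `(V, H)` for a subgroup `H`. -/
def Rep.restrict (R : Rep K) (H : Subgroup R.G) : Rep K where
  V := R.V
  G := H
  act v g := R.act v g
  act_add v w g := R.act_add v w g
  act_smul k v g := R.act_smul k v g
  act_one v := R.act_one v
  act_mul v g h := R.act_mul v g h

/-- Isomorphism of representations. -/
structure Rep.Iso (R S : Rep K) where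
  α : R.V ≃ₗ[K] S.V
  β : R.G ≃* S.G
  compat : ∀ v g, α (R.act v g) = S.act (α v) (β g)

/-- First-order formulas.  The module variables and the group variables are indexed by `ℕ`.
`modEq l` is the elementary formula `x_{i₁} ∘ u₁ + ... + x_{iₙ} ∘ uₙ ≡ 0` for the list `l` of the pairs
`(iⱼ, uⱼ)`, with `uⱼ` in the group algebra of the free group; `grpEq f` is `f ≡ 1`. -/
inductive Formula (K : Type u) [Ring K] : Type u
  | modEq : List (ℕ × MonoidAlgebra K (FreeGroup ℕ)) → Formula K
  | grpEq : FreeGroup ℕ → Formula K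
  | and : Formula K → Formula K → Formula K
  | or : Formula K → Formula K → Formula K
  | not : Formula K → Formula K
  | exV : ℕ → Formula K → Formula K
  | allV : ℕ → Formula K → Formula K
  | exG : ℕ → Formula K → Formula K
  | allG : ℕ → Formula K → Formula K

/-- `v ∘ u` for `u` in the group algebra of the free group, under the assignment `t` of the group
variables. -/
noncomputable def Rep.actAlg (R : Rep K) (t : ℕ → R.G) (v : R.V)
    (u : MonoidAlgebra K (FreeGroup ℕ)) : R.V :=
  Finsupp.sum u.coeff fun f k => k • R.act v (FreeGroup.lift t f)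

/-- Satisfaction of a formula under the assignments `s` of the module variables and `t` of the group
variables. -/
def Rep.Sat (R : Rep K) : (ℕ → R.V) → (ℕ → R.G) → Formula K → Prop
  | s, t, .modEq l => (l.map fun p => R.actAlg t (s p.1) p.2).sum = 0
  | _, t, .grpEq f => FreeGroup.lift t f = 1
  | s, t, .and φ ψ => R.Sat s t φ ∧ R.Sat s t ψ
  | s, t, .or φ ψ => R.Sat s t φ ∨ R.Sat s t ψ
  | s, t, .not φ => ¬ R.Sat s t φ
  | s, t, .exV i φ => ∃ v : R.V, R.Sat (Function.update s i v) t φ
  | s, t, .allV i φ => ∀ v : R.V, R.Sat (Function.update s i v) t φ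
  | s, t, .exG i φ => ∃ g : R.G, R.Sat s (Function.update t i g) φ
  | s, t, .allG i φ => ∀ g : R.G, R.Sat s (Function.update t i g) φ

/-- The formula `φ` holds in `R`: it is satisfied under every assignment. -/
def Rep.Holds (R : Rep K) (φ : Formula K) : Prop := ∀ s t, R.Sat s t φ

/-- Formulas of action: no elementary formulas `f ≡ 1` and no quantifiers over group variables. -/
def Formula.IsAction : Formula K → Prop
  | .modEq _ => True
  | .grpEq _ => False
  | .and φ ψ => φ.IsAction ∧ ψ.IsAction
  | .or φ ψ => φ.IsAction ∧ ψ.IsAction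
  | .not φ => φ.IsAction
  | .exV _ φ => φ.IsAction
  | .allV _ φ => φ.IsAction
  | .exG _ _ => False
  | .allG _ _ => False

/-- The class `X` is closed under isomorphism. -/
def Abstract (X : Rep K → Prop) : Prop := ∀ R S : Rep K, Nonempty (R.Iso S) → X R → X S

/-- The class `X` is defined by the set `T` of formulas: `X = T'`. -/
def DefinedBy (X : Rep K → Prop) (T : Set (Formula K)) : Prop :=
  ∀ R, X R ↔ ∀ φ ∈ T, R.Holds φ

/-- The class `X` is axiomatizable. -/
def Axiomatizable (X : Rep K → Prop) : Prop := ∃ T, DefinedBy X T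

/-- The class `X` is defined by formulas of action. -/
def ActionDefinable (X : Rep K → Prop) : Prop := ∃ T, (∀ φ ∈ T, φ.IsAction) ∧ DefinedBy X T

/-- The class `X` is saturated. -/
def Saturated (X : Rep K → Prop) : Prop := ∀ R, X R ↔ X R.bar

/-- The class `X` is right hereditary. -/
def RightHereditary (X : Rep K → Prop) : Prop := ∀ R, X R → ∀ H, X (R.restrict H)

/-! ### The known direction -/

theorem lift_comp {A B : Type*} [Group A] [Group B] (π : A →* B) (t : ℕ → A) (f : FreeGroup ℕ) :
    FreeGroup.lift (fun i => π (t i)) f = π (FreeGroup.lift t f) := by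
  have : FreeGroup.lift (fun i => π (t i)) = π.comp (FreeGroup.lift t) := by
    ext i
    simp
  rw [this]
  rfl

theorem actAlg_bar (R : Rep K) (t : ℕ → R.G) (v : R.V) (u : MonoidAlgebra K (FreeGroup ℕ)) :
    R.bar.actAlg (fun i => (QuotientGroup.mk (t i) : R.G ⧸ R.ker)) v u = R.actAlg t v u := by
  unfold Rep.actAlg
  refine Finsupp.sum_congr fun f _ => ?_
  congr 1
  exact congrArg (R.bar.act v) (lift_comp (QuotientGroup.mk' R.ker) t f)

theorem actAlg_restrict (R : Rep K) (H : Subgroup R.G) (t : ℕ → H) (v : R.V)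
    (u : MonoidAlgebra K (FreeGroup ℕ)) :
    (R.restrict H).actAlg t v u = R.actAlg (fun i => (t i : R.G)) v u := by
  unfold Rep.actAlg
  refine Finsupp.sum_congr fun f _ => ?_
  congr 1
  exact congrArg (R.act v) (lift_comp H.subtype t f).symm

theorem sat_bar (R : Rep K) {φ : Formula K} (hφ : φ.IsAction) : ∀ (s : ℕ → R.V) (t : ℕ → R.G),
    R.bar.Sat s (fun i => (QuotientGroup.mk (t i) : R.G ⧸ R.ker)) φ ↔ R.Sat s t φ := by
  induction φ with
  | modEq l =>
    intro s t
    simp only [Rep.Sat, actAlg_bar]
    exact Iff.rfl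
  | grpEq f => exact hφ.elim
  | and φ ψ h1 h2 => exact fun s t => and_congr (h1 hφ.1 s t) (h2 hφ.2 s t)
  | or φ ψ h1 h2 => exact fun s t => or_congr (h1 hφ.1 s t) (h2 hφ.2 s t)
  | not φ h => exact fun s t => not_congr (h hφ s t)
  | exV i φ h => exact fun s t => exists_congr fun v => h hφ _ t
  | allV i φ h => exact fun s t => forall_congr' fun v => h hφ _ t
  | exG i φ => exact hφ.elim
  | allG i φ => exact hφ.elim

theorem sat_restrict (R : Rep K) (H : Subgroup R.G) {φ : Formula K} (hφ : φ.IsAction) :
    ∀ (s : ℕ → R.V) (t : ℕ → H), (R.restrict H).Sat s t φ ↔ R.Sat s (fun i => (t i : R.G)) φ := by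
  induction φ with
  | modEq l =>
    intro s t
    simp only [Rep.Sat, actAlg_restrict]
    exact Iff.rfl
  | grpEq f => exact hφ.elim
  | and φ ψ h1 h2 => exact fun s t => and_congr (h1 hφ.1 s t) (h2 hφ.2 s t)
  | or φ ψ h1 h2 => exact fun s t => or_congr (h1 hφ.1 s t) (h2 hφ.2 s t)
  | not φ h => exact fun s t => not_congr (h hφ s t)
  | exV i φ h => exact fun s t => exists_congr fun v => h hφ _ t
  | allV i φ h => exact fun s t => forall_congr' fun v => h hφ _ t
  | exG i φ => exact hφ.elim
  | allG i φ => exact hφ.elim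

theorem holds_bar (R : Rep K) {φ : Formula K} (hφ : φ.IsAction) : R.bar.Holds φ ↔ R.Holds φ := by
  constructor
  · intro h s t
    exact (sat_bar R hφ s t).1 (h s _)
  · intro h s t
    obtain ⟨t', rfl⟩ : ∃ t' : ℕ → R.G, (fun i => (QuotientGroup.mk (t' i) : R.G ⧸ R.ker)) = t := by
      choose t' ht' using fun i => QuotientGroup.mk_surjective (t i)
      exact ⟨t', funext ht'⟩
    exact (sat_bar R hφ s t').2 (h s t')

/-- The known implication: a class defined by formulas of action is axiomatizable, saturated and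
right hereditary. -/
theorem known {X : Rep K → Prop} (h : ActionDefinable X) :
    Axiomatizable X ∧ Saturated X ∧ RightHereditary X := by
  obtain ⟨T, hT, hX⟩ := h
  refine ⟨⟨T, hX⟩, ?_, ?_⟩
  · intro R
    rw [hX, hX]
    exact forall_congr' fun φ => forall_congr' fun hφ => (holds_bar R (hT φ hφ)).symm
  · intro R hR H
    rw [hX] at hR ⊢
    intro φ hφ s t
    exact (sat_restrict R H (hT φ hφ) s t).2 (hR φ hφ s _)

/-! ### Formulas of action involve finitely many group variables -/

theorem lift_local (f : FreeGroup ℕ) : ∃ m : ℕ, ∀ {A : Type u} [Group A] (t t' : ℕ → A),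
    (∀ i < m, t i = t' i) → FreeGroup.lift t f = FreeGroup.lift t' f := by
  induction f using FreeGroup.induction_on with
  | C1 => exact ⟨0, fun t t' _ => by rw [map_one, map_one]⟩
  | of i => exact ⟨i + 1, fun t t' h => by simpa using h i (Nat.lt_succ_self i)⟩
  | inv_of i _ =>
    exact ⟨i + 1, fun t t' h => by simpa using h i (Nat.lt_succ_self i)⟩
  | mul x y hx hy =>
    obtain ⟨m, hm⟩ := hx
    obtain ⟨k, hk⟩ := hy
    refine ⟨max m k, fun t t' h => ?_⟩
    rw [map_mul, map_mul, hm t t' fun i hi => h i (lt_of_lt_of_le hi (le_max_left _ _)),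
      hk t t' fun i hi => h i (lt_of_lt_of_le hi (le_max_right _ _))]

theorem actAlg_local (R : Rep K) (u : MonoidAlgebra K (FreeGroup ℕ)) :
    ∃ m : ℕ, ∀ (v : R.V) (t t' : ℕ → R.G), (∀ i < m, t i = t' i) →
      R.actAlg t v u = R.actAlg t' v u := by
  classical
  choose m hm using fun f => lift_local.{u} f
  refine ⟨u.coeff.support.sup m, fun v t t' h => ?_⟩
  unfold Rep.actAlg
  refine Finsupp.sum_congr fun f hf => ?_
  rw [hm f t t' fun i hi => h i (lt_of_lt_of_le hi (Finset.le_sup hf))]

theorem sat_local (R : Rep K) {φ : Formula K} (hφ : φ.IsAction) :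
    ∃ m : ℕ, ∀ (s : ℕ → R.V) (t t' : ℕ → R.G), (∀ i < m, t i = t' i) →
      (R.Sat s t φ ↔ R.Sat s t' φ) := by
  induction φ with
  | modEq l =>
    induction l with
    | nil => exact ⟨0, fun s t t' _ => Iff.rfl⟩
    | cons p l ih =>
      have key : ∃ m : ℕ, ∀ (s : ℕ → R.V) (t t' : ℕ → R.G), (∀ i < m, t i = t' i) →
          ((p :: l).map fun p => R.actAlg t (s p.1) p.2).sum =
            ((p :: l).map fun p => R.actAlg t' (s p.1) p.2).sum := by
        generalize p :: l = L
        induction L with
        | nil => exact ⟨0, fun s t t' _ => rfl⟩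
        | cons q L ih =>
          obtain ⟨m, hm⟩ := ih
          obtain ⟨k, hk⟩ := actAlg_local R q.2
          refine ⟨max m k, fun s t t' h => ?_⟩
          rw [List.map_cons, List.map_cons, List.sum_cons, List.sum_cons,
            hm s t t' fun i hi => h i (lt_of_lt_of_le hi (le_max_left _ _)),
            hk _ t t' fun i hi => h i (lt_of_lt_of_le hi (le_max_right _ _))]
      obtain ⟨m, hm⟩ := key
      refine ⟨m, fun s t t' h => ?_⟩
      simp only [Rep.Sat]
      rw [hm s t t' h]
  | grpEq f => exact hφ.elim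
  | and φ ψ h1 h2 =>
    obtain ⟨m, hm⟩ := h1 hφ.1
    obtain ⟨k, hk⟩ := h2 hφ.2
    exact ⟨max m k, fun s t t' h => and_congr
      (hm s t t' fun i hi => h i (lt_of_lt_of_le hi (le_max_left _ _)))
      (hk s t t' fun i hi => h i (lt_of_lt_of_le hi (le_max_right _ _)))⟩
  | or φ ψ h1 h2 =>
    obtain ⟨m, hm⟩ := h1 hφ.1
    obtain ⟨k, hk⟩ := h2 hφ.2
    exact ⟨max m k, fun s t t' h => or_congr
      (hm s t t' fun i hi => h i (lt_of_lt_of_le hi (le_max_left _ _)))
      (hk s t t' fun i hi => h i (lt_of_lt_of_le hi (le_max_right _ _)))⟩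
  | not φ h =>
    obtain ⟨m, hm⟩ := h hφ
    exact ⟨m, fun s t t' h => not_congr (hm s t t' h)⟩
  | exV i φ h =>
    obtain ⟨m, hm⟩ := h hφ
    exact ⟨m, fun s t t' h => exists_congr fun v => hm _ t t' h⟩
  | allV i φ h =>
    obtain ⟨m, hm⟩ := h hφ
    exact ⟨m, fun s t t' h => forall_congr' fun v => hm _ t t' h⟩
  | exG i φ => exact hφ.elim
  | allG i φ => exact hφ.elim

/-! ### The counterexample -/

/-- The class of all representations with a nonzero vector fixed by the whole group. -/
def HasFixed (R : Rep K) : Prop := ∃ v : R.V, v ≠ 0 ∧ ∀ g, R.act v g = v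

/-- `∃ x₀ ∀ y₀ (¬ x₀ ≡ 0 ∧ x₀ ∘ y₀ + x₀ ∘ (-1) ≡ 0)`. -/
noncomputable def fixFormula (K : Type u) [Ring K] : Formula K :=
  .exV 0 (.allG 0 (.and (.not (.modEq [(0, MonoidAlgebra.single 1 1)]))
    (.modEq [(0, MonoidAlgebra.single (FreeGroup.of 0) 1), (0, MonoidAlgebra.single 1 (-1))])))

theorem actAlg_single (R : Rep K) (t : ℕ → R.G) (v : R.V) (f : FreeGroup ℕ) (k : K) :
    R.actAlg t v (MonoidAlgebra.single f k) = k • R.act v (FreeGroup.lift t f) := by
  unfold Rep.actAlg
  rw [MonoidAlgebra.coeff_single]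
  exact Finsupp.sum_single_index (zero_smul _ _)

theorem holds_fix (R : Rep K) : R.Holds (fixFormula K) ↔ HasFixed R := by
  have key : ∀ (s : ℕ → R.V) (t : ℕ → R.G), R.Sat s t (fixFormula K) ↔ HasFixed R := by
    intro s t
    simp only [fixFormula, Rep.Sat, HasFixed, List.map_cons, List.map_nil, List.sum_cons,
      List.sum_nil, actAlg_single, Function.update_self, one_smul, map_one, R.act_one, add_zero,
      FreeGroup.lift_apply_of, neg_smul, ← sub_eq_add_neg, sub_eq_zero]
    refine exists_congr fun v => ⟨fun h => ⟨(h 1).1, fun g => (h g).2⟩, fun h g => ⟨h.1, h.2 g⟩⟩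
  exact ⟨fun h => (key (fun _ => 0) (fun _ => 1)).1 (h _ _), fun h s t => (key s t).2 h⟩

theorem axiomatizable_fixed : Axiomatizable (HasFixed (K := K)) :=
  ⟨{fixFormula K}, fun R => by simp [holds_fix]⟩

theorem saturated_fixed : Saturated (HasFixed (K := K)) := by
  intro R
  constructor
  · rintro ⟨v, hv, h⟩
    refine ⟨v, hv, fun g => ?_⟩
    induction g using QuotientGroup.induction_on
    exact h _
  · rintro ⟨v, hv, h⟩
    exact ⟨v, hv, fun g => h (QuotientGroup.mk g)⟩

theorem hereditary_fixed : RightHereditary (HasFixed (K := K)) := by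
  rintro R ⟨v, hv, h⟩ H
  exact ⟨v, hv, fun g => h g.1⟩

theorem abstract_fixed : Abstract (HasFixed (K := K)) := by
  rintro R S ⟨e⟩ ⟨v, hv, h⟩
  refine ⟨e.α v, fun h0 => hv ((LinearEquiv.map_eq_zero_iff e.α).1 h0), fun g => ?_⟩
  obtain ⟨g', rfl⟩ := e.β.surjective g
  rw [← e.compat, h]

/-- The group of the automorphisms of `K^(ℕ)` fixing all but finitely many basis lines. -/
def FinGrp (K : Type u) [Ring K] : Subgroup ((ℕ →₀ K) ≃ₗ[K] (ℕ →₀ K)) where
  carrier := {e | ∃ N, ∀ n, N ≤ n → ∀ a, e (Finsupp.single n a) = Finsupp.single n a}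
  one_mem' := ⟨0, fun n _ a => rfl⟩
  mul_mem' := by
    rintro a b ⟨N, hN⟩ ⟨M, hM⟩
    refine ⟨max N M, fun n hn k => ?_⟩
    rw [LinearEquiv.mul_apply, hM n (le_trans (le_max_right _ _) hn),
      hN n (le_trans (le_max_left _ _) hn)]
  inv_mem' := by
    rintro a ⟨N, hN⟩
    refine ⟨N, fun n hn k => ?_⟩
    have h : a (Finsupp.single n k) = Finsupp.single n k := hN n hn k
    have h2 : a⁻¹ (a (Finsupp.single n k)) = Finsupp.single n k := by
      rw [← LinearEquiv.mul_apply, inv_mul_cancel]
      rfl
    rw [h] at h2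
    exact h2

/-- The representation of `FinGrp K` on `K^(ℕ)`. -/
noncomputable def finRep (K : Type u) [Ring K] : Rep K where
  V := ℕ →₀ K
  G := FinGrp K
  act v g := (g⁻¹ : FinGrp K).1 v
  act_add v w g := map_add _ _ _
  act_smul k v g := map_smul _ _ _
  act_one v := by
    rw [inv_one]
    rfl
  act_mul v g h := by
    rw [mul_inv_rev]
    rfl

theorem not_fixed_finRep : ¬ HasFixed (finRep K) := by
  rintro ⟨v', hv', h'⟩
  have main : ∀ v : ℕ →₀ K, (∀ g, (finRep K).act v g = v) → v = 0 := ?_
  · exact hv' (main v' h')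
  intro v h
  obtain ⟨m, hm⟩ := Infinite.exists_notMem_finset v.support
  have hm0 : v m = 0 := Finsupp.notMem_support_iff.1 hm
  refine Finsupp.ext fun n => ?_
  let e : (ℕ →₀ K) ≃ₗ[K] (ℕ →₀ K) := Finsupp.domLCongr (Equiv.swap n m)
  have he : e ∈ FinGrp K := by
    refine ⟨max n m + 1, fun k hk a => ?_⟩
    rw [Finsupp.domLCongr_single, Equiv.swap_apply_of_ne_of_ne]
    · rintro rfl
      exact absurd (le_max_left k m) (by omega)
    · rintro rfl
      exact absurd (le_max_right n k) (by omega)
  have h1 := h ⟨e, he⟩⁻¹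
  have h2 : e v = v := by
    have h3 : (finRep K).act v (⟨e, he⟩⁻¹ : FinGrp K) = e v := by
      show ((⟨e, he⟩⁻¹)⁻¹ : FinGrp K).1 v = e v
      rw [inv_inv]
    exact h3.symm.trans h1
  have h3 : v n = v m := by
    have h4 := DFunLike.congr_fun h2 m
    simp only [e, Finsupp.domLCongr_apply, Finsupp.domCongr_apply, Finsupp.equivMapDomain_apply,
      Equiv.symm_swap, Equiv.swap_apply_right] at h4
    exact h4
  rw [h3, hm0]
  rfl

theorem fixed_fg [Nontrivial K] (t : ℕ → FinGrp K) (m : ℕ) (ht : ∀ i, m ≤ i → t i = 1) :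
    HasFixed ((finRep K).restrict (Subgroup.closure (Set.range t) : Subgroup (FinGrp K))) := by
  choose N hN using fun i => (t i).2
  let M := (Finset.range m).sup N
  have hM : ∀ i, (t i).1 (Finsupp.single M (1 : K)) = Finsupp.single M 1 := by
    intro i
    by_cases hi : i < m
    · exact hN i M (Finset.le_sup (Finset.mem_range.2 hi)) 1
    · rw [ht i (not_lt.1 hi)]
      rfl
  refine ⟨Finsupp.single M (1 : K), ?_, ?_⟩
  · intro h
    exact one_ne_zero (Finsupp.single_eq_zero.1 h)
  · rintro ⟨g, hg⟩
    have key : ∀ g ∈ (Subgroup.closure (Set.range t) : Subgroup (FinGrp K)),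
        g.1 (Finsupp.single M (1 : K)) = Finsupp.single M 1 := by
      intro g hg
      induction hg using Subgroup.closure_induction with
      | mem x hx =>
        obtain ⟨i, rfl⟩ := hx
        exact hM i
      | one => rfl
      | mul x y _ _ hx hy =>
        show x.1 (y.1 _) = _
        rw [hy, hx]
      | inv x _ hx =>
        have h2 : (x⁻¹).1 (x.1 (Finsupp.single M (1 : K))) = Finsupp.single M 1 := by
          show ((x⁻¹ * x : FinGrp K)).1 (Finsupp.single M (1 : K)) = _
          rw [inv_mul_cancel]
          rfl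
        rw [hx] at h2
        exact h2
    exact key _ (Subgroup.inv_mem _ hg)

theorem not_actionDefinable [Nontrivial K] : ¬ ActionDefinable (HasFixed (K := K)) := by
  rintro ⟨T, hT, hX⟩
  refine not_fixed_finRep (K := K) ((hX _).2 fun φ hφ s t => ?_)
  obtain ⟨m, hm⟩ := sat_local (finRep K) (hT φ hφ)
  let t' : ℕ → FinGrp K := fun i => if i < m then t i else 1
  have h1 : ∀ i < m, t i = t' i := fun i hi => (if_pos hi).symm
  rw [hm s t t' h1]
  let H : Subgroup (finRep K).G := Subgroup.closure (Set.range t')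
  have hH := fixed_fg t' m fun i hi => if_neg (not_lt.2 hi)
  have h2 := (hX _).1 hH φ hφ s (fun i => (⟨t' i, Subgroup.subset_closure ⟨i, rfl⟩⟩ : H))
  exact (sat_restrict (finRep K) H (hT φ hφ) s _).1 h2

/-! ### The zero ring -/

theorem zero_case [Subsingleton K] {X : Rep K → Prop} (hA : Abstract X) (hS : Saturated X) :
    ActionDefinable X := by
  have hV : ∀ R : Rep K, Subsingleton R.V := fun R => Module.subsingleton K R.V
  have hG : ∀ R : Rep K, Subsingleton R.bar.G := by
    intro R
    refine ⟨fun a b => ?_⟩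
    induction a using QuotientGroup.induction_on
    induction b using QuotientGroup.induction_on
    exact QuotientGroup.eq.2 fun v => (hV R).elim _ _
  have hiso : ∀ R S : Rep K, Nonempty (R.bar.Iso S.bar) := by
    intro R S
    have := hV R
    have := hV S
    have := hG R
    have := hG S
    have : Subsingleton R.bar.V := hV R
    have : Subsingleton S.bar.V := hV S
    exact ⟨⟨⟨⟨⟨fun _ => 0, fun _ _ => (add_zero _).symm⟩, fun _ _ => (smul_zero _).symm⟩,
      fun _ => 0, fun _ => Subsingleton.elim _ _, fun _ => Subsingleton.elim _ _⟩,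
      ⟨⟨fun _ => 1, fun _ => 1, fun _ => Subsingleton.elim _ _, fun _ => Subsingleton.elim _ _⟩,
        fun _ _ => (mul_one _).symm⟩, fun _ _ => Subsingleton.elim _ _⟩⟩
  have hall : ∀ R S : Rep K, X R → X S := by
    intro R S h
    rw [hS] at h ⊢
    exact hA _ _ (hiso R S) h
  by_cases h : ∃ R, X R
  · obtain ⟨R, hR⟩ := h
    exact ⟨∅, fun φ hφ => hφ.elim, fun S => ⟨fun _ φ hφ => hφ.elim, fun _ => hall R S hR⟩⟩
  · refine ⟨{.not (.modEq [])}, ?_, fun S => ⟨fun hS => (h ⟨S, hS⟩).elim, fun hS => ?_⟩⟩
    · rintro φ rfl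
      trivial
    · exact (hS _ rfl (fun _ => 0) (fun _ => 1) rfl).elim

/-- **Q1 holds over `K` exactly when `K` is the zero ring.**  In particular it fails over every
nonzero ring. -/
theorem result (K : Type u) [Ring K] :
    (∀ X : Rep K → Prop, Abstract X →
      (ActionDefinable X ↔ Axiomatizable X ∧ Saturated X ∧ RightHereditary X)) ↔
    Subsingleton K := by
  constructor
  · intro h
    by_contra hK
    rw [not_subsingleton_iff_nontrivial] at hK
    exact not_actionDefinable ((h HasFixed abstract_fixed).2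
      ⟨axiomatizable_fixed, saturated_fixed, hereditary_fixed⟩)
  · intro hK X hX
    exact ⟨known, fun h => zero_case hX h.2.1⟩

end Pool.Agent.Results.MP_98e941_al.ActionFormulas
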